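import Pool.Agent.H43.Bex6

namespace Pool.Agent.Results.MP_d3ee63_an.Yes

open Set Filter Topology MeasureTheory Cardinal Pool.Agent.H43

/-- Digits `0, ..., ⌊β⌋`. -/
abbrev Dig (β : ℝ) : Type := Fin (⌊β⌋₊ + 1)

/-- `ε` (indexed from `0`) is a `β`-expansion of `x`. -/
def IsExp (β x : ℝ) (ε : ℕ → Dig β) : Prop := HasSum (fun i => ((ε i : ℕ) : ℝ) / β ^ (i + 1)) x

/-- Proportion of the digit `k` among the first `n` digits. -/
noncomputable def freq {β : ℝ} (ε : ℕ → Dig β) (k : Dig β) (n : ℕ) : ℝ :=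
  (((Finset.range n).filter fun i => ε i = k).card : ℝ) / n

/-- All digit frequencies exist and those of `k` and `⌊β⌋ - k` agree. -/
def Balanced {β : ℝ} (ε : ℕ → Dig β) : Prop :=
  ∃ p : Dig β → ℝ, (∀ k, Tendsto (freq ε k) atTop (𝓝 (p k))) ∧ ∀ k, p k = p k.rev

theorem result (β : ℝ) (hβ : 2 < β) (hn : ∀ n : ℕ, β ≠ n) :
    ∀ᵐ x ∂volume.restrict (Icc 0 (⌊β⌋₊ / (β - 1))),
      #{ε : ℕ → Dig β | IsExp β x ε ∧ Balanced ε} = continuum := by
  have _ := hn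
  have hb : 0 < β - 1 := by linarith
  have h1 : 1 < (⌊β⌋₊ : ℝ) / (β - 1) := (one_lt_div hb).2 (by linarith [Nat.lt_floor_add_one β])
  have e : (⌊β⌋₊ : ℝ) / (β - 1) = 2 * ((⌊β⌋₊ / (β - 1) - 1) / 2) + 1 := by ring
  obtain ⟨p, p1, p2⟩ := Bex.balanced (m := ⌊β⌋₊) (β := β) (a := (⌊β⌋₊ / (β - 1) - 1) / 2)
    ⟨hβ, by rw [← e]; field_simp; ring, by linarith⟩
  rw [← e] at p2
  refine p2.mono fun x hx => le_antisymm ((mk_set_le _).trans ?_) (hx.trans (mk_le_mk_of_subset ?_))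
  · have : #(ℕ → Dig β) ≤ #(ℕ → ℕ) :=
      mk_le_of_injective (f := fun w i => (w i : ℕ)) fun w w' h => funext fun i =>
        Fin.ext (congrFun h i)
    exact this.trans (by simp)
  · rintro ε ⟨h2, h3⟩
    refine ⟨h2, p, fun k => Metric.tendsto_nhds.2 fun δ hδ => ?_, fun k => (p1 k).symm⟩
    filter_upwards [h3 k (δ / 2) (by positivity), eventually_gt_atTop 0] with n h4 h5
    have n0 : (0:ℝ) < n := by exact_mod_cast h5
    have : Bex.sm (fun d => Bex.ind k d - p k) ε n = (freq ε k n - p k) * n := by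
      simp [Bex.sm, Bex.ind, freq]; field_simp
    rw [this, abs_mul, Nat.abs_cast, mul_le_mul_iff_left₀ n0] at h4
    rw [Real.dist_eq]; linarith

end Pool.Agent.Results.MP_d3ee63_an.Yes
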